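import Pool.Agent.Helper79.BPath.Defs

/-!
# Countability of machines, growth and enumeration of polynomial-time functions
-/

namespace Pool.Agent.Helper9.BPath

open Pool.Agent.BPath

/-- Coding an instruction by an element of a sum type. -/
def actCode {k s q : ℕ} : Act k s q →
    (Unit ⊕ Unit) ⊕ ((Fin (q + 1) × Fin (q + 1)) ⊕ (Move k s q × List (Move k s q)))
  | .accept => .inl (.inl ())
  | .reject => .inl (.inr ())
  | .query y n => .inr (.inl (y, n))
  | .branch a l => .inr (.inr (a, l))

theorem actCode_injective {k s q : ℕ} : Function.Injective (actCode (k := k) (s := s) (q := q)) := by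
  intro x y h
  cases x <;> cases y <;> simp_all [actCode]

instance {k s q : ℕ} : Countable (Act k s q) := actCode_injective.countable

/-- PIECE C1. -/
theorem countable_machine : Countable Machine := by
  have hinj : Function.Injective (fun M : Machine =>
      (⟨M.k, M.s, M.q, M.act⟩ :
        Σ k s q : ℕ, (Fin (q + 1) → (Fin (k + 2) → Option (Sym s)) → Act k s q))) := by
    intro M N h
    cases M; cases N
    simp only [Sigma.mk.injEq] at h
    obtain ⟨rfl, h⟩ := h
    simp only [heq_eq_eq, Sigma.mk.injEq] at h
    obtain ⟨rfl, h⟩ := h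
    simp only [heq_eq_eq, Sigma.mk.injEq] at h
    obtain ⟨rfl, h⟩ := h
    simp only [heq_eq_eq] at h
    subst h
    rfl
  exact hinj.countable

/-- The number of symbols which an instruction pushes on stack `1` along its first branch. -/
def pushLen {k s q : ℕ} : Act k s q → ℕ
  | .branch a _ => (a.2 1).length
  | _ => 0

theorem exists_push_bound (M : Machine) : ∃ B : ℕ, ∀ (st : Fin (M.q + 1))
    (g : Fin (M.k + 2) → Option (Sym M.s)), pushLen (M.act st g) ≤ B := by
  refine ⟨Finset.univ.sup (fun p : Fin (M.q + 1) × (Fin (M.k + 2) → Option (Sym M.s)) =>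
    pushLen (M.act p.1 p.2)), fun st g => ?_⟩
  exact Finset.le_sup (f := fun p : Fin (M.q + 1) × (Fin (M.k + 2) → Option (Sym M.s)) =>
    pushLen (M.act p.1 p.2)) (Finset.mem_univ (st, g))

theorem output_length (M : Machine) (B : ℕ) (hB : ∀ (st : Fin (M.q + 1))
    (g : Fin (M.k + 2) → Option (Sym M.s)), pushLen (M.act st g) ≤ B) (T : ℕ) :
    ∀ (c d : Cfg M), M.output T c = some d → (d.stack 1).length ≤ (c.stack 1).length + B * T := by
  induction T with
  | zero =>
    intro c d h
    unfold Machine.output at h
    split at h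
    · cases h; omega
    · exact absurd h (by simp)
  | succ T ih =>
    intro c d h
    unfold Machine.output at h
    split at h
    · cases h; exact Nat.le_add_right _ _
    · rename_i a hact
      have h1 := ih _ _ h
      have h2 : (a.2 1).length ≤ B := by
        have := hB c.state (fun i => (c.stack i).head?)
        unfold Machine.instr at hact
        rw [hact] at this
        exact this
      have h3 : ((M.move c a).stack 1).length ≤ (c.stack 1).length + B := by
        simp only [Machine.move, List.length_append, List.length_tail]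
        omega
      calc (d.stack 1).length ≤ ((M.move c a).stack 1).length + B * T := h1
        _ ≤ (c.stack 1).length + B + B * T := by omega
        _ = (c.stack 1).length + B * (T + 1) := by ring
    · exact absurd h (by simp)

theorem poly_bound (B c : ℕ) : ∃ d : ℕ, ∀ n : ℕ, B * (n ^ c + c) ≤ n ^ d + d := by
  refine ⟨B * (1 + c) + B + c, fun n => ?_⟩
  rcases Nat.lt_or_ge n 2 with hn | hn
  · have h1 : n ^ c ≤ 1 := by
      calc n ^ c ≤ 1 ^ c := Nat.pow_le_pow_left (by omega) c
        _ = 1 := one_pow c
    calc B * (n ^ c + c) ≤ B * (1 + c) := Nat.mul_le_mul_left _ (by omega)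
      _ ≤ _ := by omega
  · have h1 : B ≤ n ^ B := (Nat.lt_pow_self (by omega)).le
    have h2 : B * n ^ c ≤ n ^ (B * (1 + c) + B + c) := by
      calc B * n ^ c ≤ n ^ B * n ^ c := Nat.mul_le_mul_right _ h1
        _ = n ^ (B + c) := (pow_add _ _ _).symm
        _ ≤ _ := Nat.pow_le_pow_right (by omega) (by omega)
    have h3 : B * c ≤ B * (1 + c) + B + c := by nlinarith
    calc B * (n ^ c + c) = B * n ^ c + B * c := by ring
      _ ≤ _ := by omega

/-- PIECE C2. -/
theorem polyTime_length (f : List Bool → List Bool) (hf : PolyTime f) :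
    ∃ d : ℕ, ∀ w, (f w).length ≤ w.length ^ d + d := by
  obtain ⟨M, c, h⟩ := hf
  obtain ⟨B, hB⟩ := exists_push_bound M
  obtain ⟨d, hd⟩ := poly_bound B c
  refine ⟨d, fun w => ?_⟩
  obtain ⟨e, he, hfw⟩ := h w
  have h1 := output_length M B hB _ _ _ he
  have h2 : ((M.init w).stack 1).length = 0 := by
    have : (1 : Fin (M.k + 2)) ≠ 0 := by
      simp
    simp [Machine.init, this]
  have h3 : (f w).length ≤ (e.stack 1).length := by
    rw [← hfw]
    exact List.length_filterMap_le _ _
  calc (f w).length ≤ (e.stack 1).length := h3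
    _ ≤ B * (w.length ^ c + c) := by omega
    _ ≤ _ := hd _

/-- PIECE C3. -/
theorem polyTime_enum : ∃ F : Machine × ℕ → List Bool → List Bool,
    ∀ f, PolyTime f → ∃ p, F p = f := by
  refine ⟨fun p w => match p.1.output (w.length ^ p.2 + p.2) (p.1.init w) with
    | some d => p.1.bits (d.stack 1)
    | none => [], ?_⟩
  rintro f ⟨M, c, h⟩
  refine ⟨(M, c), ?_⟩
  funext w
  obtain ⟨d, hd, hf⟩ := h w
  simp only [hd, hf]

end Pool.Agent.Helper9.BPath
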