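import Mathlib

/-!
# Exponential beats polynomial, in the form used by the diagonalisation
-/

namespace Pool.Agent.Helper9.BPath

theorem pow_add_le {n m c : ℕ} (hn : 2 ≤ n) (hc : c ≤ n) : n ^ m + c ≤ n ^ (m + 2) := by
  have h1 : n ^ m ≤ n ^ (m + 1) := Nat.pow_le_pow_right (by omega) (by omega)
  have h2 : n ≤ n ^ (m + 1) := by
    calc n = n ^ 1 := (pow_one n).symm
      _ ≤ n ^ (m + 1) := Nat.pow_le_pow_right (by omega) (by omega)
  calc n ^ m + c ≤ n ^ (m + 1) + n ^ (m + 1) := by omega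
    _ = 2 * n ^ (m + 1) := by ring
    _ ≤ n * n ^ (m + 1) := Nat.mul_le_mul_right _ hn
    _ = n ^ (m + 2) := by ring

theorem exists_pow_le (a C : ℕ) : ∃ n₀ : ℕ, ∀ n, n₀ ≤ n → C * n ^ a ≤ 2 ^ n := by
  have h := tendsto_pow_const_div_const_pow_of_one_lt a (r := (2 : ℝ)) (by norm_num)
  have h2 : ∀ᶠ n : ℕ in Filter.atTop, (n : ℝ) ^ a / 2 ^ n < 1 / ((C : ℝ) + 1) := by
    apply h.eventually_lt_const
    positivity
  obtain ⟨n₀, hn₀⟩ := Filter.eventually_atTop.1 h2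
  refine ⟨n₀, fun n hn => ?_⟩
  have h3 := hn₀ n hn
  rw [div_lt_div_iff₀ (by positivity) (by positivity)] at h3
  have h4 : (C : ℝ) * (n : ℝ) ^ a ≤ 2 ^ n := by
    have : (0 : ℝ) ≤ (n : ℝ) ^ a := by positivity
    nlinarith
  exact_mod_cast h4

/-- For all large `n`, with `t = (b + 1) * (L ^ c + c) + 1` and `L ≤ n ^ d + d`, both numerical
hypotheses of the core hold for `K = 2 ^ (n - 2)`. -/
theorem exists_large (b c d : ℕ) : ∃ n₀ : ℕ, ∀ n, n₀ ≤ n → ∀ L, L ≤ n ^ d + d →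
    10 ^ 20 * ((b + 1) * (L ^ c + c) + 1) ^ 4 ≤ 2 ^ (n - 2) := by
  obtain ⟨n₁, h₁⟩ := exists_pow_le (4 * ((d + 2) * c + 5)) (4 * 10 ^ 20)
  refine ⟨n₁ + b + c + d + 2, fun n hn L hL => ?_⟩
  have hL' : L ≤ n ^ (d + 2) := hL.trans (pow_add_le (by omega) (by omega))
  have h2 : L ^ c + c ≤ n ^ ((d + 2) * c + 2) := by
    calc L ^ c + c ≤ (n ^ (d + 2)) ^ c + c := by
          have := Nat.pow_le_pow_left hL' c
          omega
      _ = n ^ ((d + 2) * c) + c := by rw [pow_mul]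
      _ ≤ _ := pow_add_le (by omega) (by omega)
  have h3 : (b + 1) * (L ^ c + c) + 1 ≤ n ^ ((d + 2) * c + 5) := by
    calc (b + 1) * (L ^ c + c) + 1 ≤ n * n ^ ((d + 2) * c + 2) + 1 := by
          have := Nat.mul_le_mul (show b + 1 ≤ n by omega) h2
          omega
      _ = n ^ ((d + 2) * c + 3) + 1 := by ring
      _ ≤ _ := pow_add_le (by omega) (by omega)
  have h4 := h₁ n (by omega)
  have h5 : 4 * (10 ^ 20 * ((b + 1) * (L ^ c + c) + 1) ^ 4) ≤ 2 ^ n := by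
    calc 4 * (10 ^ 20 * ((b + 1) * (L ^ c + c) + 1) ^ 4)
        ≤ 4 * (10 ^ 20 * (n ^ ((d + 2) * c + 5)) ^ 4) := by
          have := Nat.pow_le_pow_left h3 4
          omega
      _ = 4 * 10 ^ 20 * n ^ (4 * ((d + 2) * c + 5)) := by
          rw [← pow_mul, mul_comm ((d + 2) * c + 5) 4]
          ring
      _ ≤ _ := h4
  have h6 : 2 ^ n = 4 * 2 ^ (n - 2) := by
    have : n = (n - 2) + 2 := by omega
    conv_lhs => rw [this]
    ring
  omega

end Pool.Agent.Helper9.BPath
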