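import Pool.Agent.Helper9.BPath.Stage

/-!
# The diagonalisation: an oracle without a complete set for `BPP_path`, from the pieces
-/

namespace Pool.Agent.Helper9.BPath

open Pool.Agent.BPath

/-- If the relevant counts avoid the window between `2 ^ (n - 2)` and `4 * 2 ^ n`, the threshold
language is in `BPP_path`. -/
theorem threshold_mem (i : ℕ) (X : Set (List Bool)) (M : Machine) (c : ℕ) (hM : M.RunsInTime c)
    (h1 : ∀ (n : ℕ),
      M.acc c X (List.replicate n false) = (X ∩ region i n).ncard * 8 ^ n ∧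
      M.rej c X (List.replicate n false) = 16 ^ n - (X ∩ region i n).ncard)
    (h2 : ∀ (w : List Bool), (∀ n, w ≠ List.replicate n false) →
      M.acc c X w = 0 ∧ 1 ≤ M.rej c X w)
    (h3 : ∀ n, (X ∩ region i n).ncard = 0 ∨
      (2 ≤ n ∧ (X ∩ region i n).ncard ≤ 2 ^ (n - 2)) ∨ 4 * 2 ^ n ≤ (X ∩ region i n).ncard) :
    {w | ∃ n, w = List.replicate n false ∧ 4 * 2 ^ n ≤ (X ∩ region i n).ncard} ∈ BPPpath X := by
  refine ⟨M, c, hM, fun w => ?_⟩
  have hmul : ∀ n : ℕ, 2 ^ n * 8 ^ n = 16 ^ n := by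
    intro n
    rw [← mul_pow]
    norm_num
  constructor
  · rintro ⟨n, rfl, hn⟩
    obtain ⟨ha, hr⟩ := h1 n
    have h5 : 4 * 16 ^ n ≤ M.acc c X (List.replicate n false) := by
      rw [ha, ← hmul n, ← mul_assoc]
      exact Nat.mul_le_mul_right _ hn
    have h6 : 0 < 16 ^ n := by positivity
    have h7 : M.rej c X (List.replicate n false) ≤ 16 ^ n := by
      rw [hr]
      exact Nat.sub_le _ _
    omega
  · intro hw
    by_cases hrep : ∃ n, w = List.replicate n false
    · obtain ⟨n, rfl⟩ := hrep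
      obtain ⟨ha, hr⟩ := h1 n
      have h6 : 0 < 16 ^ n := by positivity
      rcases h3 n with h0 | ⟨hn2, hle⟩ | hge
      · rw [h0] at ha hr
        simp only [zero_mul] at ha
        simp only [Nat.sub_zero] at hr
        omega
      · have h8 : 4 * (X ∩ region i n).ncard ≤ 2 ^ n := by
          have : 2 ^ n = 4 * 2 ^ (n - 2) := by
            have : n = (n - 2) + 2 := by omega
            conv_lhs => rw [this]
            ring
          omega
        have h9 : 4 * M.acc c X (List.replicate n false) ≤ 16 ^ n := by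
          rw [ha, ← hmul n, ← mul_assoc]
          exact Nat.mul_le_mul_right _ h8
        have h10 : (8 : ℕ) ^ n = 4 ^ n * 2 ^ n := by
          rw [← mul_pow]
          norm_num
        have h11 : 16 * (X ∩ region i n).ncard ≤ 16 ^ n := by
          have h12 : (2 : ℕ) ^ n * 4 ≤ 2 ^ n * 8 ^ n := by
            apply Nat.mul_le_mul_left
            calc (4 : ℕ) ≤ 8 ^ 1 := by norm_num
              _ ≤ 8 ^ n := Nat.pow_le_pow_right (by norm_num) (by omega)
          rw [hmul] at h12
          omega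
        omega
      · exact absurd ⟨n, rfl, hge⟩ hw
    · push Not at hrep
      obtain ⟨ha, hr⟩ := h2 w hrep
      omega

section

variable
  (core : ∀ {V : Type} [Fintype V] [DecidableEq V] (t K : ℕ), 1 ≤ t →
    10 ^ 20 * t ^ 4 ≤ K → 10 ^ 20 * K * t ^ 4 ≤ Fintype.card V →
    ∀ (acc rej : Finset V → ℝ), Conical t acc → Conical t rej →
    (∀ x, 1 ≤ acc x + rej x) → (∀ x, acc x + rej x ≤ 2 ^ t) →
    (∀ x, 3 * rej x ≤ acc x ∨ 3 * acc x ≤ rej x) →
    (∀ x, x.card ≤ K → 3 * acc x ≤ rej x) →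
    (∀ x, 16 * K ≤ x.card → 3 * rej x ≤ acc x) → False)
  (paths_conical : ∀ (M : Machine) {V : Type} [DecidableEq V]
    (e : V → List Bool), Function.Injective e → ∀ (A : Set (List Bool)), (∀ v, e v ∉ A) →
    ∀ (o : Option Bool) (T : ℕ) (c : Cfg M),
    Conical T (fun x : Finset V => (M.paths (A ∪ e '' (x : Set V)) o T c : ℝ)))
  (paths_pos : ∀ (M : Machine) (X : Set (List Bool)) (T : ℕ) (c : Cfg M),
    1 ≤ M.paths X (some true) T c + M.paths X (some false) T c + M.paths X none T c)
  (paths_le : ∀ (M : Machine), ∃ b : ℕ, ∀ (X : Set (List Bool)) (T : ℕ) (c : Cfg M),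
    M.paths X (some true) T c + M.paths X (some false) T c + M.paths X none T c ≤ 2 ^ (b * T))
  (paths_support : ∀ (M : Machine) (o : Option Bool) (T : ℕ) (c : Cfg M),
    ∃ S : Finset (List Bool), ∀ X Y : Set (List Bool), (∀ s ∈ S, s ∈ X ↔ s ∈ Y) →
      M.paths X o T c = M.paths Y o T c)
  (exists_machine : ∀ (i : ℕ), ∃ (M : Machine) (c : ℕ), M.RunsInTime c ∧
    (∀ (X : Set (List Bool)) (n : ℕ),
      M.acc c X (List.replicate n false) = (X ∩ region i n).ncard * 8 ^ n ∧
      M.rej c X (List.replicate n false) = 16 ^ n - (X ∩ region i n).ncard) ∧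
    (∀ (X : Set (List Bool)) (w : List Bool), (∀ n, w ≠ List.replicate n false) →
      M.acc c X w = 0 ∧ 1 ≤ M.rej c X w))

include core paths_conical paths_pos paths_le paths_support exists_machine

/-- PIECE D. -/
theorem main_of : ∃ X : Set (List Bool), ¬ ∃ C : Set (List Bool), Complete X C := by
  classical
  -- enumerations
  have : Countable Machine := countable_machine
  have : Nonempty (Machine × ℕ) := ⟨(⟨0, 0, 0, fun _ _ => Act.accept⟩, 0)⟩
  obtain ⟨g, hg⟩ := exists_surjective_nat (Machine × ℕ)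
  obtain ⟨F, hF⟩ := polyTime_enum
  -- the recursion
  have step : ∀ (e : ℕ) (p : {p : Finset (List Bool) × ℕ // ∀ s ∈ p.1, s.length < p.2}),
      ∃ q : {p : Finset (List Bool) × ℕ // ∀ s ∈ p.1, s.length < p.2}, ∃ n B,
        Stage (g e.unpair.1).1 (g e.unpair.1).2 (F (g e.unpair.2)) e.unpair.1
          p.1.1 p.1.2 n B q.1.2 ∧ q.1.1 = p.1.1 ∪ B := by
    intro e p
    obtain ⟨n, B, b', h⟩ := exists_stage core paths_conical paths_pos paths_le paths_support
      (g e.unpair.1).1 (g e.unpair.1).2 (F (g e.unpair.2)) e.unpair.1 p.1.1 p.1.2 p.2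
    exact ⟨⟨(p.1.1 ∪ B, b'), h.len⟩, n, B, h, rfl⟩
  choose nx hnx using step
  obtain ⟨σ, hσ⟩ : ∃ σ : ℕ → {p : Finset (List Bool) × ℕ // ∀ s ∈ p.1, s.length < p.2},
      (σ 0).1.1 = ∅ ∧ ∀ e, σ (e + 1) = nx e (σ e) :=
    ⟨fun e => Nat.rec ⟨(∅, 0), by simp⟩ (fun e p => nx e p) e, rfl, fun e => rfl⟩
  obtain ⟨hσ0, hσ⟩ := hσ
  have hstep : ∀ e, ∃ n B,
      Stage (g e.unpair.1).1 (g e.unpair.1).2 (F (g e.unpair.2)) e.unpair.1
        (σ e).1.1 (σ e).1.2 n B (σ (e + 1)).1.2 ∧ (σ (e + 1)).1.1 = (σ e).1.1 ∪ B := by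
    intro e
    rw [hσ e]
    exact hnx e (σ e)
  choose N B hS hAB using hstep
  -- monotonicity
  have hb : ∀ e k, (σ e).1.2 ≤ (σ (e + k)).1.2 := by
    intro e k
    induction k with
    | zero => exact le_rfl
    | succ k ih =>
      have h1 := (hS (e + k)).le
      have h2 := (hS (e + k)).lt
      have h3 : (σ (e + (k + 1))).1.2 = (σ (e + k + 1)).1.2 := rfl
      omega
  have hA : ∀ e k, (σ e).1.1 ⊆ (σ (e + k)).1.1 := by
    intro e k
    induction k with
    | zero => exact Finset.Subset.refl _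
    | succ k ih =>
      have h3 : (σ (e + (k + 1))).1.1 = (σ (e + k)).1.1 ∪ B (e + k) := hAB (e + k)
      rw [h3]
      exact ih.trans Finset.subset_union_left
  have hNinj : ∀ e e', e < e' → N e < N e' := by
    intro e e' h
    obtain ⟨k, rfl⟩ := Nat.exists_eq_add_of_lt h
    have h1 := (hS e).lt
    have h2 := (hS (e + k + 1)).le
    have h3 := hb (e + 1) k
    have h4 : (σ (e + 1 + k)).1.2 = (σ (e + k + 1)).1.2 := by
      rw [show e + 1 + k = e + k + 1 by omega]
    omega
  -- the oracle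
  obtain ⟨X, hX⟩ : ∃ X : Set (List Bool), X = {s | ∃ e, s ∈ (σ e).1.1} := ⟨_, rfl⟩
  have hXB : ∀ s, s ∈ X ↔ ∃ e, s ∈ B e := by
    intro s
    rw [hX]
    constructor
    · rintro ⟨e, he⟩
      induction e with
      | zero => rw [hσ0] at he; exact absurd he (Finset.notMem_empty _)
      | succ e ih =>
        rw [hAB e, Finset.mem_union] at he
        rcases he with he | he
        · exact ih he
        · exact ⟨e, he⟩
    · rintro ⟨e, he⟩
      exact ⟨e + 1, by rw [hAB e]; exact Finset.mem_union_right _ he⟩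
  have hagree : ∀ e, ∀ s : List Bool, s.length < (σ e).1.2 → (s ∈ X ↔ s ∈ (σ e).1.1) := by
    intro e s hs
    rw [hX]
    constructor
    · rintro ⟨e', he'⟩
      rcases le_total e' e with h | h
      · obtain ⟨k, rfl⟩ := Nat.exists_eq_add_of_le h
        exact hA e' k he'
      · obtain ⟨k, rfl⟩ := Nat.exists_eq_add_of_le h
        clear h
        induction k with
        | zero => exact he'
        | succ k ih =>
          have h3 : (σ (e + (k + 1))).1.1 = (σ (e + k)).1.1 ∪ B (e + k) := hAB (e + k)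
          rw [h3, Finset.mem_union] at he'
          rcases he' with he' | he'
          · exact ih he'
          · exfalso
            have h4 := length_of_mem_region ((hS (e + k)).reg s he')
            have h5 := (hS (e + k)).le
            have h6 := hb e k
            omega
    · intro h
      exact ⟨e, h⟩
  have hreg : ∀ e, X ∩ region e.unpair.1 (N e) = (B e : Set (List Bool)) := by
    intro e
    ext s
    constructor
    · rintro ⟨h1, h2⟩
      obtain ⟨e', he'⟩ := (hXB s).1 h1
      obtain ⟨-, h4⟩ := region_inj h2 ((hS e').reg s he')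
      rcases lt_trichotomy e e' with h | h | h
      · have := hNinj _ _ h
        omega
      · rw [h]
        exact he'
      · have := hNinj _ _ h
        omega
    · intro h
      exact ⟨(hXB s).2 ⟨e, h⟩, (hS e).reg s h⟩
  have hcount : ∀ i n, (X ∩ region i n).ncard = 0 ∨
      ∃ e, e.unpair.1 = i ∧ N e = n ∧ B e ≠ ∅ := by
    intro i n
    rcases Set.eq_empty_or_nonempty (X ∩ region i n) with h | ⟨s, h1, h2⟩
    · left
      rw [h, Set.ncard_empty]
    · right
      obtain ⟨e, he⟩ := (hXB s).1 h1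
      obtain ⟨h3, h4⟩ := region_inj h2 ((hS e).reg s he)
      exact ⟨e, h3.symm, h4.symm, Finset.ne_empty_of_mem he⟩
  refine ⟨X, ?_⟩
  rintro ⟨C, ⟨M, c, hM, hC⟩, hcomplete⟩
  obtain ⟨i, hi⟩ := hg (M, c)
  -- what the stages with first component `i` say
  have hgood : ∀ e, e.unpair.1 = i → PolyTime (F (g e.unpair.2)) →
      2 ≤ N e ∧
      (((B e).card ≤ 2 ^ (N e - 2) ∧
        F (g e.unpair.2) (List.replicate (N e) false) ∈ C) ∨
      (16 * 2 ^ (N e - 2) ≤ (B e).card ∧
        F (g e.unpair.2) (List.replicate (N e) false) ∉ C)) := by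
    intro e he hf
    have h1 : Stage M c (F (g e.unpair.2)) i (σ e).1.1 (σ e).1.2 (N e) (B e)
        (σ (e + 1)).1.2 := by
      have h0 := hS e
      rw [he, hi] at h0
      exact h0
    obtain ⟨h2, h3⟩ := h1.good hM hf
    have h4 := h3 X (fun s hs => by
      rw [hagree (e + 1) s hs, hAB e])
    refine ⟨h2, ?_⟩
    obtain ⟨h5, h6⟩ := hC (F (g e.unpair.2) (List.replicate (N e) false))
    rcases h4 with ⟨h7, h8⟩ | ⟨h7, h8⟩ | ⟨h7, h8⟩
    · exfalso
      by_cases hmem : F (g e.unpair.2) (List.replicate (N e) false) ∈ C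
      · have := h5 hmem
        omega
      · have := h6 hmem
        omega
    · left
      refine ⟨h7, ?_⟩
      by_contra hmem
      have := h6 hmem
      omega
    · right
      refine ⟨h7, ?_⟩
      intro hmem
      have := h5 hmem
      omega
  have hpow : ∀ n, 2 ≤ n → 16 * 2 ^ (n - 2) = 4 * 2 ^ n := by
    intro n hn
    have : 2 ^ n = 4 * 2 ^ (n - 2) := by
      have : n = (n - 2) + 2 := by omega
      conv_lhs => rw [this]
      ring
    omega
  obtain ⟨MB, cB, hMB, hB1, hB2⟩ := exists_machine i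
  have hL := threshold_mem i X MB cB hMB (fun n => hB1 X n) (fun w hw => hB2 X w hw) (by
    intro n
    rcases hcount i n with h0 | ⟨e, he, hn, hne⟩
    · exact Or.inl h0
    · have hf : PolyTime (F (g e.unpair.2)) := by
        by_contra hf
        exact hne ((hS e).triv fun h => hf h.2)
      obtain ⟨h2, h3⟩ := hgood e he hf
      have h4 : (X ∩ region i n).ncard = (B e).card := by
        rw [← he, ← hn, hreg e, Set.ncard_coe_finset]
      rw [h4, ← hn]
      rcases h3 with ⟨h3, -⟩ | ⟨h3, -⟩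
      · exact Or.inr (Or.inl ⟨h2, h3⟩)
      · refine Or.inr (Or.inr ?_)
        have := hpow (N e) h2
        omega)
  obtain ⟨f, hf, hred⟩ := hcomplete _ hL
  obtain ⟨p, hp⟩ := hF f hf
  obtain ⟨j, hj⟩ := hg p
  have he1 : (Nat.pair i j).unpair.1 = i := by rw [Nat.unpair_pair]
  have he2 : (Nat.pair i j).unpair.2 = j := by rw [Nat.unpair_pair]
  have hfe : F (g (Nat.pair i j).unpair.2) = f := by rw [he2, hj, hp]
  obtain ⟨h2, h3⟩ := hgood (Nat.pair i j) he1 (by rw [hfe]; exact hf)
  rw [hfe] at h3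
  have h4 : (X ∩ region i (N (Nat.pair i j))).ncard = (B (Nat.pair i j)).card := by
    have := hreg (Nat.pair i j)
    rw [he1] at this
    rw [this, Set.ncard_coe_finset]
  have h5 := hpow _ h2
  have h6 : 0 < 2 ^ (N (Nat.pair i j) - 2) := by positivity
  rcases h3 with ⟨h3, h7⟩ | ⟨h3, h7⟩
  · obtain ⟨n, hn1, hn2⟩ := (hred _).2 h7
    have hn3 : N (Nat.pair i j) = n := by
      have := congrArg List.length hn1
      simpa using this
    rw [← hn3, h4] at hn2
    omega
  · apply h7
    rw [← hred]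
    exact ⟨_, rfl, by rw [h4]; omega⟩

end

end Pool.Agent.Helper9.BPath
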