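import Pool.Agent.Helper79.BPath.Defs
import Pool.Agent.Helper79.BPath.Conical
import Pool.Agent.Helper9.BPath.Count
import Pool.Agent.Helper9.BPath.Growth

/-!
# One stage of the diagonalisation
-/

namespace Pool.Agent.Helper9.BPath

open Pool.Agent.BPath

/-- The strings `1^i 0 u` with `|u| = 4 n`. -/
def region (i n : ℕ) : Set (List Bool) :=
  {s | ∃ u : List Bool, u.length = 4 * n ∧ s = List.replicate i true ++ false :: u}

theorem length_of_mem_region {i n : ℕ} {s : List Bool} (h : s ∈ region i n) :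
    s.length = i + (4 * n + 1) := by
  obtain ⟨u, hu, rfl⟩ := h
  simp [hu]

theorem region_inj {i n i' n' : ℕ} {s : List Bool} (h : s ∈ region i n) (h' : s ∈ region i' n') :
    i = i' ∧ n = n' := by
  obtain ⟨u, hu, rfl⟩ := h
  obtain ⟨u', hu', h2⟩ := h'
  have key : ∀ (i i' : ℕ) (u u' : List Bool),
      List.replicate i true ++ false :: u = List.replicate i' true ++ false :: u' →
      i = i' ∧ u = u' := by
    intro i
    induction i with
    | zero =>
      intro i' u u' h
      cases i' with
      | zero => simpa using h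
      | succ i' => simp [List.replicate_succ] at h
    | succ i ih =>
      intro i' u u' h
      cases i' with
      | zero => simp [List.replicate_succ] at h
      | succ i' =>
        simp only [List.replicate_succ, List.cons_append, List.cons.injEq, true_and] at h
        obtain ⟨h1, h2⟩ := ih i' u u' h
        exact ⟨by omega, h2⟩
  obtain ⟨h3, h4⟩ := key i i' u u' h2
  subst h4
  exact ⟨h3, by omega⟩

theorem Conical.mono {V : Type} [DecidableEq V] {t t' : ℕ} {f : Finset V → ℝ}
    (h : Conical t f) (htt : t ≤ t') : Conical t' f := by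
  obtain ⟨ι, hι, P, Q, r, h1, h2, h3, h4⟩ := h
  exact ⟨ι, hι, P, Q, r, h1, fun i => (h2 i).trans htt, fun i => (h3 i).trans htt, h4⟩

/-- The outcome of one stage: started with the finite set `A` of strings of length `< b`, the stage
adds the finite set `B ⊆ region i n`, and everything below `b'` is now fixed. -/
structure Stage (M : Machine) (c : ℕ) (f : List Bool → List Bool) (i : ℕ)
    (A : Finset (List Bool)) (b n : ℕ) (B : Finset (List Bool)) (b' : ℕ) : Prop where
  le : b ≤ n
  lt : n < b'
  reg : ∀ s ∈ B, s ∈ region i n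
  len : ∀ s ∈ A ∪ B, s.length < b'
  triv : ¬ (M.RunsInTime c ∧ PolyTime f) → B = ∅
  good : M.RunsInTime c → PolyTime f → 2 ≤ n ∧ ∀ X : Set (List Bool),
    (∀ s : List Bool, s.length < b' → (s ∈ X ↔ s ∈ A ∪ B)) →
    (M.acc c X (f (List.replicate n false)) ≤ 3 * M.rej c X (f (List.replicate n false)) ∧
      M.rej c X (f (List.replicate n false)) ≤ 3 * M.acc c X (f (List.replicate n false))) ∨
    (B.card ≤ 2 ^ (n - 2) ∧
      M.rej c X (f (List.replicate n false)) ≤ 3 * M.acc c X (f (List.replicate n false))) ∨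
    (16 * 2 ^ (n - 2) ≤ B.card ∧
      M.acc c X (f (List.replicate n false)) ≤ 3 * M.rej c X (f (List.replicate n false)))

/-- The coding of the ground set of the core by strings. -/
def code (i n : ℕ) (u : Fin (4 * n) → Bool) : List Bool :=
  List.replicate i true ++ false :: List.ofFn u

theorem code_injective (i n : ℕ) : Function.Injective (code i n) := by
  intro u v h
  unfold code at h
  have h1 := List.append_cancel_left h
  simp only [List.cons.injEq, true_and] at h1
  exact List.ofFn_injective h1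

theorem code_mem (i n : ℕ) (u : Fin (4 * n) → Bool) : code i n u ∈ region i n :=
  ⟨List.ofFn u, by simp, rfl⟩

section

variable
  (core : ∀ {V : Type} [Fintype V] [DecidableEq V] (t K : ℕ), 1 ≤ t →
    10 ^ 20 * t ^ 4 ≤ K → 10 ^ 20 * K * t ^ 4 ≤ Fintype.card V →
    ∀ (acc rej : Finset V → ℝ), Conical t acc → Conical t rej →
    (∀ x, 1 ≤ acc x + rej x) → (∀ x, acc x + rej x ≤ 2 ^ t) →
    (∀ x, 3 * rej x ≤ acc x ∨ 3 * acc x ≤ rej x) →
    (∀ x, x.card ≤ K → 3 * acc x ≤ rej x) →
    (∀ x, 16 * K ≤ x.card → 3 * rej x ≤ acc x) → False)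
  (paths_conical : ∀ (M : Machine) {V : Type} [DecidableEq V]
    (e : V → List Bool), Function.Injective e → ∀ (A : Set (List Bool)), (∀ v, e v ∉ A) →
    ∀ (o : Option Bool) (T : ℕ) (c : Cfg M),
    Conical T (fun x : Finset V => (M.paths (A ∪ e '' (x : Set V)) o T c : ℝ)))
  (paths_pos : ∀ (M : Machine) (X : Set (List Bool)) (T : ℕ) (c : Cfg M),
    1 ≤ M.paths X (some true) T c + M.paths X (some false) T c + M.paths X none T c)
  (paths_le : ∀ (M : Machine), ∃ b : ℕ, ∀ (X : Set (List Bool)) (T : ℕ) (c : Cfg M),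
    M.paths X (some true) T c + M.paths X (some false) T c + M.paths X none T c ≤ 2 ^ (b * T))
  (paths_support : ∀ (M : Machine) (o : Option Bool) (T : ℕ) (c : Cfg M),
    ∃ S : Finset (List Bool), ∀ X Y : Set (List Bool), (∀ s ∈ S, s ∈ X ↔ s ∈ Y) →
      M.paths X o T c = M.paths Y o T c)

include core paths_conical paths_pos paths_le paths_support

theorem exists_stage (M : Machine) (c : ℕ) (f : List Bool → List Bool) (i : ℕ)
    (A : Finset (List Bool)) (b : ℕ) (hA : ∀ s ∈ A, s.length < b) :
    ∃ (n : ℕ) (B : Finset (List Bool)) (b' : ℕ), Stage M c f i A b n B b' := by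
  classical
  by_cases h : M.RunsInTime c ∧ PolyTime f
  swap
  · refine ⟨b, ∅, b + 1, le_rfl, Nat.lt_succ_self b, by simp, ?_, fun _ => rfl, ?_⟩
    · intro s hs
      simp only [Finset.union_empty] at hs
      have := hA s hs
      omega
    · intro h1 h2
      exact absurd ⟨h1, h2⟩ h
  obtain ⟨hM, hf⟩ := h
  obtain ⟨b₁, hb₁⟩ := paths_le M
  obtain ⟨d, hd⟩ := polyTime_length f hf
  obtain ⟨n₀, hn₀⟩ := exists_large b₁ c d
  obtain ⟨n, hn⟩ : ∃ n, n = max b n₀ + 2 := ⟨_, rfl⟩
  have hbn : b ≤ n := by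
    have := le_max_left b n₀
    omega
  have hn₀n : n₀ ≤ n := by
    have := le_max_right b n₀
    omega
  obtain ⟨w, hw⟩ : ∃ w, w = f (List.replicate n false) := ⟨_, rfl⟩
  obtain ⟨T, hT⟩ : ∃ T, T = w.length ^ c + c := ⟨_, rfl⟩
  obtain ⟨t, ht⟩ : ∃ t, t = (b₁ + 1) * T + 1 := ⟨_, rfl⟩
  obtain ⟨K, hK⟩ : ∃ K, K = 2 ^ (n - 2) := ⟨_, rfl⟩
  have hwlen : w.length ≤ n ^ d + d := by
    have := hd (List.replicate n false)
    rw [List.length_replicate] at this
    rw [hw]
    exact this
  have hKt : 10 ^ 20 * t ^ 4 ≤ K := by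
    rw [ht, hT, hK]
    exact hn₀ n hn₀n _ hwlen
  have hN : 10 ^ 20 * K * t ^ 4 ≤ Fintype.card (Fin (4 * n) → Bool) := by
    have h1 : Fintype.card (Fin (4 * n) → Bool) = 2 ^ (4 * n) := by simp
    rw [h1]
    calc 10 ^ 20 * K * t ^ 4 = K * (10 ^ 20 * t ^ 4) := by ring
      _ ≤ K * K := Nat.mul_le_mul_left _ hKt
      _ = 2 ^ ((n - 2) + (n - 2)) := by rw [hK, ← pow_add]
      _ ≤ 2 ^ (4 * n) := Nat.pow_le_pow_right (by norm_num) (by omega)
  have hnotA : ∀ v, code i n v ∉ (A : Set (List Bool)) := by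
    intro v hv
    have h1 := hA _ (Finset.mem_coe.1 hv)
    have h2 := length_of_mem_region (code_mem i n v)
    omega
  have hnone : ∀ X : Set (List Bool), M.paths X none T (M.init w) = 0 := by
    intro X
    rw [hT]
    exact hM X w
  have hTt : T ≤ t := by
    rw [ht]
    nlinarith
  have key : ∃ x : Finset (Fin (4 * n) → Bool),
      (M.paths (↑A ∪ code i n '' (x : Set (Fin (4 * n) → Bool))) (some true) T (M.init w) ≤
        3 * M.paths (↑A ∪ code i n '' (x : Set (Fin (4 * n) → Bool))) (some false) T (M.init w) ∧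
      M.paths (↑A ∪ code i n '' (x : Set (Fin (4 * n) → Bool))) (some false) T (M.init w) ≤
        3 * M.paths (↑A ∪ code i n '' (x : Set (Fin (4 * n) → Bool))) (some true) T (M.init w)) ∨
      (x.card ≤ K ∧
      M.paths (↑A ∪ code i n '' (x : Set (Fin (4 * n) → Bool))) (some false) T (M.init w) ≤
        3 * M.paths (↑A ∪ code i n '' (x : Set (Fin (4 * n) → Bool))) (some true) T (M.init w)) ∨
      (16 * K ≤ x.card ∧
      M.paths (↑A ∪ code i n '' (x : Set (Fin (4 * n) → Bool))) (some true) T (M.init w) ≤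
        3 * M.paths (↑A ∪ code i n '' (x : Set (Fin (4 * n) → Bool))) (some false) T
          (M.init w)) := by
    by_contra hcon
    push Not at hcon
    refine core (V := Fin (4 * n) → Bool) t K (by rw [ht]; omega) hKt hN
      (fun x => (M.paths (↑A ∪ code i n '' (x : Set (Fin (4 * n) → Bool))) (some true) T
        (M.init w) : ℝ))
      (fun x => (M.paths (↑A ∪ code i n '' (x : Set (Fin (4 * n) → Bool))) (some false) T
        (M.init w) : ℝ))
      (Conical.mono (paths_conical M _ (code_injective i n) _ hnotA _ _ _) hTt)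
      (Conical.mono (paths_conical M _ (code_injective i n) _ hnotA _ _ _) hTt)
      ?_ ?_ ?_ ?_ ?_
    · intro x
      have h1 := paths_pos M (↑A ∪ code i n '' (x : Set (Fin (4 * n) → Bool))) T (M.init w)
      rw [hnone, add_zero] at h1
      show (1 : ℝ) ≤ _
      exact_mod_cast h1
    · intro x
      have h1 := hb₁ (↑A ∪ code i n '' (x : Set (Fin (4 * n) → Bool))) T (M.init w)
      rw [hnone, add_zero] at h1
      have h2 : (2 : ℕ) ^ (b₁ * T) ≤ 2 ^ t := Nat.pow_le_pow_right (by norm_num) (by
        rw [ht]; nlinarith)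
      have h3 := h1.trans h2
      show _ ≤ (2 : ℝ) ^ t
      exact_mod_cast h3
    · intro x
      obtain ⟨h1, -, -⟩ := hcon x
      by_cases h2 : M.paths (↑A ∪ code i n '' (x : Set (Fin (4 * n) → Bool))) (some true) T
          (M.init w) ≤ 3 * M.paths (↑A ∪ code i n '' (x : Set (Fin (4 * n) → Bool))) (some false) T
          (M.init w)
      · right
        have h3 := (h1 h2).le
        show (3 : ℝ) * _ ≤ _
        exact_mod_cast h3
      · left
        have h3 := (not_le.1 h2).le
        show (3 : ℝ) * _ ≤ _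
        exact_mod_cast h3
    · intro x hx
      obtain ⟨-, h1, -⟩ := hcon x
      have h3 := (h1 hx).le
      show (3 : ℝ) * _ ≤ _
      exact_mod_cast h3
    · intro x hx
      obtain ⟨-, -, h1⟩ := hcon x
      have h3 := (h1 hx).le
      show (3 : ℝ) * _ ≤ _
      exact_mod_cast h3
  obtain ⟨x, hx⟩ := key
  obtain ⟨S₁, hS₁⟩ := paths_support M (some true) T (M.init w)
  obtain ⟨S₂, hS₂⟩ := paths_support M (some false) T (M.init w)
  obtain ⟨B, hB⟩ : ∃ B, B = x.image (code i n) := ⟨_, rfl⟩
  have hBcard : B.card = x.card := by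
    rw [hB]
    exact Finset.card_image_of_injective _ (code_injective i n)
  obtain ⟨b', hb'⟩ : ∃ b', b' = ((A ∪ B) ∪ (S₁ ∪ S₂)).sup List.length + n + 1 := ⟨_, rfl⟩
  have hlen : ∀ s ∈ (A ∪ B) ∪ (S₁ ∪ S₂), s.length < b' := by
    intro s hs
    have := Finset.le_sup (f := List.length) hs
    omega
  refine ⟨n, B, b', hbn, by omega, ?_, ?_, ?_, ?_⟩
  · intro s hs
    rw [hB, Finset.mem_image] at hs
    obtain ⟨u, -, rfl⟩ := hs
    exact code_mem i n u
  · intro s hs
    exact hlen s (Finset.mem_union_left _ hs)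
  · intro h
    exact absurd ⟨hM, hf⟩ h
  · intro _ _
    refine ⟨by omega, fun X hX => ?_⟩
    have hagree : ∀ s : List Bool, s.length < b' →
        (s ∈ X ↔ s ∈ (↑A ∪ code i n '' (x : Set (Fin (4 * n) → Bool)) : Set (List Bool))) := by
      intro s hs
      rw [hX s hs, hB]
      simp
    have h1 : M.acc c X w =
        M.paths (↑A ∪ code i n '' (x : Set (Fin (4 * n) → Bool))) (some true) T (M.init w) := by
      unfold Machine.acc
      rw [← hT]
      exact hS₁ _ _ fun s hs => hagree s (hlen s (by simp [hs]))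
    have h2 : M.rej c X w =
        M.paths (↑A ∪ code i n '' (x : Set (Fin (4 * n) → Bool))) (some false) T (M.init w) := by
      unfold Machine.rej
      rw [← hT]
      exact hS₂ _ _ fun s hs => hagree s (hlen s (by simp [hs]))
    rw [← hw, h1, h2, hBcard, ← hK]
    exact hx

end

end Pool.Agent.Helper9.BPath
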